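import Pool.Agent.Helper59.MB.Goals4

/-!
# Packet MB-APH: approximation in `L¹` by functions of finitely many coordinates
-/

set_option autoImplicit false

open MeasureTheory Filter Topology

namespace Pool.Agent.Helper40.MB

open Pool.Agent.Helper59.MB

/-- restriction to the coordinates `|i| ≤ M` -/
def rM (M : ℕ) (w : ℤ → A) : {i : ℤ // |i| ≤ M} → A := fun i => w i

lemma measurable_rM (M : ℕ) : Measurable (rM M) := by
  rw [measurable_pi_iff]
  intro i
  exact measurable_pi_apply _

/-- the filtration of the coordinates `|i| ≤ M` -/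
def flM : Filtration ℕ (inferInstance : MeasurableSpace (ℤ → A)) where
  seq M := MeasurableSpace.comap (rM M) inferInstance
  mono' := by
    intro M N hMN
    have hmeas : Measurable fun (y : {i : ℤ // |i| ≤ N} → A) (i : {i : ℤ // |i| ≤ M}) =>
        y ⟨i.1, i.2.trans (by exact_mod_cast hMN)⟩ := by
      rw [measurable_pi_iff]
      intro i
      exact measurable_pi_apply _
    intro s hs
    obtain ⟨t, ht, rfl⟩ := hs
    exact ⟨_, hmeas ht, rfl⟩
  le' := fun M => (measurable_rM M).comap_le

lemma iSup_flM : (⨆ n, flM n) = (inferInstance : MeasurableSpace (ℤ → A)) := by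
  apply le_antisymm
  · exact iSup_le fun n => flM.le n
  · change MeasurableSpace.pi ≤ _
    refine iSup_le fun i => ?_
    refine le_trans ?_ (le_iSup (fun n => flM n) i.natAbs)
    intro s hs
    obtain ⟨t, ht, rfl⟩ := hs
    have hi : |i| ≤ (i.natAbs : ℤ) := by rw [Int.abs_eq_natAbs]
    exact ⟨(fun y : {j : ℤ // |j| ≤ (i.natAbs : ℤ)} → A => y ⟨i, hi⟩) ⁻¹' t,
      measurable_pi_apply _ ht, rfl⟩

lemma loc_flM (M : ℕ) (h : (ℤ → A) → ℝ) (hh : Measurable[flM M] h) (w w' : ℤ → A)
    (hw : ∀ i : ℤ, |i| ≤ M → w i = w' i) : h w = h w' := by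
  obtain ⟨t, ht, hts⟩ := hh (measurableSet_singleton (h w))
  have hr : rM M w = rM M w' := by
    funext i
    exact hw i.1 i.2
  have h1 : w ∈ rM M ⁻¹' t := by
    rw [hts]
    rfl
  have h2 : w' ∈ rM M ⁻¹' t := by
    change rM M w' ∈ t
    rw [← hr]
    exact h1
  rw [hts] at h2
  exact (Set.mem_singleton_iff.mp h2).symm

instance (m : Measure A) [IsProbabilityMeasure m] : IsProbabilityMeasure (Be m) := by
  unfold Be
  infer_instance

/-- step 1: approximation by the conditional expectations -/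
lemma aph1 (m : Measure A) [IsProbabilityMeasure m] (F : (ℤ → A) → ℝ) (b θ : ℝ)
    (hF : Measurable F) (hθ : 0 < θ) (hb : ∀ w, |F w| ≤ b) :
    ∃ (M : ℕ) (h : (ℤ → A) → ℝ), Measurable h ∧
      (∀ w w' : ℤ → A, (∀ i : ℤ, |i| ≤ M → w i = w' i) → h w = h w') ∧
      Integrable h (Be m) ∧ ∫ w, |F w - h w| ∂(Be m) ≤ θ := by
  have hFi : Integrable F (Be m) :=
    Integrable.of_bound hF.aestronglyMeasurable b (Eventually.of_forall fun w => by
      rw [Real.norm_eq_abs]; exact hb w)
  have hFm : StronglyMeasurable[⨆ n, flM n] F := by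
    rw [iSup_flM]
    exact hF.stronglyMeasurable
  have ht := hFi.tendsto_eLpNorm_condExp (ℱ := flM) hFm
  have hev : ∀ᶠ n in atTop, eLpNorm ((Be m)[F | flM n] - F) 1 (Be m) < ENNReal.ofReal θ :=
    ht.eventually_lt_const (by simpa using hθ)
  obtain ⟨M, hM⟩ := hev.exists
  refine ⟨M, (Be m)[F | flM M], ?_, ?_, integrable_condExp, ?_⟩
  · exact (stronglyMeasurable_condExp (m := flM M)).measurable.mono (flM.le M) le_rfl
  · intro w w' hw
    exact loc_flM M _ (stronglyMeasurable_condExp (m := flM M)).measurable w w' hw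
  · have hi : Integrable (fun w => ((Be m)[F | flM M]) w - F w) (Be m) :=
      integrable_condExp.sub hFi
    have h1 : ∫ w, |F w - ((Be m)[F | flM M]) w| ∂(Be m) =
        ∫ w, ‖((Be m)[F | flM M]) w - F w‖ ∂(Be m) := by
      refine integral_congr_ae (Eventually.of_forall fun w => ?_)
      simp only [Real.norm_eq_abs]
      exact abs_sub_comm _ _
    rw [h1, integral_norm_eq_lintegral_enorm hi.aestronglyMeasurable]
    rw [eLpNorm_one_eq_lintegral_enorm] at hM
    have h2 := ENNReal.toReal_mono ENNReal.ofReal_ne_top hM.le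
    rw [ENNReal.toReal_ofReal hθ.le] at h2
    exact h2

lemma clamp_close (x y b : ℝ) (hx : |x| ≤ b) : |x - max (-b) (min b y)| ≤ |x - y| := by
  have h1 := abs_le.mp hx
  rcases le_total y b with h | h
  · rw [min_eq_right h]
    rcases le_total (-b) y with h' | h'
    · rw [max_eq_right h']
    · rw [max_eq_left h', abs_of_nonneg (by linarith), abs_of_nonneg (by linarith)]
      linarith
  · rw [min_eq_left h, max_eq_right (by linarith), abs_of_nonpos (by linarith),
      abs_of_nonpos (by linarith)]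
    linarith

theorem t_APH : S_APH := by
  intro m _ F b θ hF hθ hb hint
  obtain ⟨M, h₀, hm₀, hloc₀, hi₀, hd₀⟩ := aph1 m F b (θ / 2) hF (by positivity) hb
  have hb0 : 0 ≤ b := le_trans (abs_nonneg _) (hb fun _ _ => true)
  set h₁ : (ℤ → A) → ℝ := fun w => max (-b) (min b (h₀ w)) with hh₁
  have hm₁ : Measurable h₁ := measurable_const.max (measurable_const.min hm₀)
  have hb₁ : ∀ w, |h₁ w| ≤ b := by
    intro w
    rw [abs_le]
    exact ⟨le_max_left _ _, max_le (by linarith) (min_le_left _ _)⟩
  have hFi : Integrable F (Be m) :=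
    Integrable.of_bound hF.aestronglyMeasurable b (Eventually.of_forall fun w => by
      rw [Real.norm_eq_abs]; exact hb w)
  have hi₁ : Integrable h₁ (Be m) :=
    Integrable.of_bound hm₁.aestronglyMeasurable b (Eventually.of_forall fun w => by
      rw [Real.norm_eq_abs]; exact hb₁ w)
  have hd₁ : ∫ w, |F w - h₁ w| ∂(Be m) ≤ θ / 2 := by
    refine le_trans (integral_mono (hFi.sub hi₁).abs (hFi.sub hi₀).abs fun w => ?_) hd₀
    exact clamp_close _ _ _ (hb w)
  set c : ℝ := ∫ w, h₁ w ∂(Be m) with hc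
  have hc1 : |c| ≤ θ / 2 := by
    have e : c = -∫ w, (F w - h₁ w) ∂(Be m) := by
      rw [integral_sub hFi hi₁, hint]
      ring
    rw [e, abs_neg]
    exact le_trans (abs_integral_le_integral_abs) hd₁
  have hc2 : |c| ≤ b := by
    have := norm_integral_le_of_norm_le_const (μ := Be m) (f := h₁) (C := b)
      (Eventually.of_forall fun w => by rw [Real.norm_eq_abs]; exact hb₁ w)
    simpa [Real.norm_eq_abs] using this
  refine ⟨M, fun w => h₁ w - c, hm₁.sub measurable_const, ?_, ?_, ?_, ?_⟩
  · intro w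
    have h1 := hb₁ w
    calc |h₁ w - c| ≤ |h₁ w| + |c| := abs_sub _ _
      _ ≤ 2 * b := by linarith
  · intro w w' hw
    simp only [hh₁]
    rw [hloc₀ w w' hw]
  · rw [integral_sub hi₁ (integrable_const _)]
    simp [hc]
  · have hle : ∫ w, |F w - (h₁ w - c)| ∂(Be m) ≤ ∫ w, (|F w - h₁ w| + |c|) ∂(Be m) := by
      refine integral_mono (hFi.sub (hi₁.sub (integrable_const c))).abs
        ((hFi.sub hi₁).abs.add (integrable_const _)) fun w => ?_
      have e : F w - (h₁ w - c) = (F w - h₁ w) + c := by ring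
      change |F w - (h₁ w - c)| ≤ |F w - h₁ w| + |c|
      rw [e]
      exact abs_add_le _ _
    refine le_trans hle ?_
    have hs : ∫ w, (|F w - h₁ w| + |c|) ∂(Be m) =
        (∫ w, |F w - h₁ w| ∂(Be m)) + ∫ _w, |c| ∂(Be m) :=
      integral_add (f := fun w => |F w - h₁ w|) (g := fun _ => |c|) (hFi.sub hi₁).abs
        (integrable_const _)
    rw [hs]
    simp only [integral_const, probReal_univ, smul_eq_mul, one_mul]
    linarith

end Pool.Agent.Helper40.MB
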