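import Pool.Agent.Helper70.MB.Goals

/-!
# MB-BDD: uniform bounds for Kuhn-Tucker measures
-/

open MeasureTheory Set Metric
open scoped ENNReal
open Pool.Agent.Results.MP_91ee6f_gt

namespace Pool.Agent.Helper40.MB

open Pool.Agent.Helper70.MB

/-- `e^{-|x|}` is integrable. -/
theorem integrable_exp_neg_norm {n : ℕ} (hn : 1 ≤ n) :
    Integrable (fun x : En n => Real.exp (-‖x‖)) := by
  have : Nonempty (Fin n) := ⟨⟨0, hn⟩⟩
  have : Nontrivial (En n) := by infer_instance
  rw [show (fun x : En n => Real.exp (-‖x‖)) = ((fun t : ℝ => Real.exp (-t)) ‖·‖) from rfl,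
    integrable_fun_norm_addHaar (volume : Measure (En n)) (f := fun t : ℝ => Real.exp (-t))]
  have h := Real.GammaIntegral_convergent (s := (n : ℝ)) (by exact_mod_cast hn)
  refine (integrableOn_congr_fun ?_ measurableSet_Ioi).mp h
  intro x hx
  have hx' : (0 : ℝ) < x := hx
  simp only [finrank_euclideanSpace, Fintype.card_fin, smul_eq_mul]
  rw [mul_comm, show (n : ℝ) - 1 = ((n - 1 : ℕ) : ℝ) by rw [Nat.cast_sub hn, Nat.cast_one],
    Real.rpow_natCast]

/-- Tonelli. -/
theorem tonelli {n : ℕ} (τ : Measure (En n)) [IsFiniteMeasure τ] {f : En n → ℝ≥0∞}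
    (hf : Measurable f) :
    ∫⁻ x, f x * τ (closedBall x 1) = ∫⁻ y, (∫⁻ x in closedBall y 1, f x) ∂τ := by
  have hset : MeasurableSet {p : En n × En n | dist p.2 p.1 ≤ 1} :=
    measurableSet_le (by fun_prop) measurable_const
  have h1 : ∀ x : En n, f x * τ (closedBall x 1) =
      ∫⁻ y, f x * ({p : En n × En n | dist p.2 p.1 ≤ 1}.indicator 1 (x, y)) ∂τ := by
    intro x
    rw [lintegral_const_mul]
    · congr 1
      rw [← lintegral_indicator_one measurableSet_closedBall]
      rfl
    · exact (measurable_one.indicator hset).comp (by fun_prop)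
  simp_rw [h1]
  rw [lintegral_lintegral_swap]
  · apply lintegral_congr
    intro y
    rw [← lintegral_indicator measurableSet_closedBall]
    apply lintegral_congr
    intro x
    by_cases h : dist x y ≤ 1
    · rw [indicator_of_mem (show x ∈ closedBall y 1 from h),
        indicator_of_mem (show (x, y) ∈ {p : En n × En n | dist p.2 p.1 ≤ 1} by
          rw [mem_ofPred_eq, dist_comm]; exact h)]
      simp
    · rw [indicator_of_notMem (show x ∉ closedBall y 1 from h),
        indicator_of_notMem (show (x, y) ∉ {p : En n × En n | dist p.2 p.1 ≤ 1} by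
          rw [mem_ofPred_eq, dist_comm]; exact h)]
      simp
  · apply Measurable.aemeasurable
    exact (hf.comp measurable_fst).mul ((measurable_one.indicator hset).comp measurable_id)

/-- The volume of balls. -/
theorem vol_closedBall {n : ℕ} (x : En n) {r : ℝ} (hr : 0 ≤ r) :
    (volume : Measure (En n)) (closedBall x r) =
      ENNReal.ofReal (r ^ n) * (volume : Measure (En n)) (ball 0 1) := by
  rw [Measure.addHaar_closedBall _ _ hr]
  simp

theorem vol_pos (n : ℕ) : (volume : Measure (En n)) (ball 0 1) ≠ 0 :=
  (measure_ball_pos _ _ one_pos).ne'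

theorem vol_fin (n : ℕ) : (volume : Measure (En n)) (ball 0 1) ≠ ∞ := measure_ball_lt_top.ne

/-- The kernel is integrable. -/
theorem integrable_kernel {n : ℕ} (τ : Measure (En n)) [IsFiniteMeasure τ] (x : En n) :
    Integrable (fun y : En n => Real.exp (-dist x y)) τ := by
  refine (integrable_const (1 : ℝ)).mono' ?_ (Filter.Eventually.of_forall fun y => ?_)
  · exact (by fun_prop : Continuous fun y : En n => Real.exp (-dist x y)).aestronglyMeasurable
  · rw [Real.norm_eq_abs, abs_of_pos (Real.exp_pos _)]
    exact Real.exp_le_one_iff.mpr (neg_nonpos.mpr dist_nonneg)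

theorem ofReal_potential {n : ℕ} (τ : Measure (En n)) [IsFiniteMeasure τ] (x : En n) :
    ENNReal.ofReal (potential τ x) = ∫⁻ y, ENNReal.ofReal (Real.exp (-dist x y)) ∂τ := by
  unfold potential
  exact ofReal_integral_eq_lintegral_ofReal (integrable_kernel τ x)
    (Filter.Eventually.of_forall fun y => (Real.exp_pos _).le)

/-- Balls of radius one have bounded mass. -/
theorem unit_ball {n : ℕ} {X : Set (En n)} {τ : Measure (En n)} (h : KT X τ) (x : En n) :
    τ (closedBall x 1) ≤ ENNReal.ofReal (Real.exp 2) := by
  have := h.fin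
  rcases eq_or_ne (τ (closedBall x 1)) 0 with h0 | h0
  · rw [h0]
    positivity
  · obtain ⟨z, hz1, hz2⟩ := Measure.nonempty_inter_support_of_pos (pos_iff_ne_zero.mpr h0)
    have h1 := h.eq z hz2
    have h2 := ofReal_potential τ z
    rw [h1, ENNReal.ofReal_one] at h2
    have h3 : ENNReal.ofReal (Real.exp (-2)) * τ (closedBall x 1) ≤ 1 := by
      calc ENNReal.ofReal (Real.exp (-2)) * τ (closedBall x 1)
          = ∫⁻ _ in closedBall x 1, ENNReal.ofReal (Real.exp (-2)) ∂τ := by
            rw [setLIntegral_const]
        _ ≤ ∫⁻ y in closedBall x 1, ENNReal.ofReal (Real.exp (-dist z y)) ∂τ := by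
            apply setLIntegral_mono' measurableSet_closedBall
            intro y hy
            apply ENNReal.ofReal_le_ofReal
            apply Real.exp_le_exp.mpr
            rw [mem_closedBall] at hy hz1
            have := dist_triangle_right z y x
            linarith
        _ ≤ ∫⁻ y, ENNReal.ofReal (Real.exp (-dist z y)) ∂τ := setLIntegral_le_lintegral _ _
        _ = 1 := h2.symm
    calc τ (closedBall x 1)
        = ENNReal.ofReal (Real.exp 2) *
            (ENNReal.ofReal (Real.exp (-2)) * τ (closedBall x 1)) := by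
          rw [← mul_assoc, ← ENNReal.ofReal_mul (Real.exp_pos _).le, ← Real.exp_add]
          simp
      _ ≤ ENNReal.ofReal (Real.exp 2) * 1 := by gcongr
      _ = _ := mul_one _

/-- The mass of balls. -/
theorem ball_mass {n : ℕ} {X : Set (En n)} {τ : Measure (En n)} (h : KT X τ) (x : En n) {r : ℝ}
    (hr : 0 ≤ r) :
    τ (closedBall x r) ≤ ENNReal.ofReal (Real.exp 2) * ENNReal.ofReal ((1 + r) ^ n) := by
  have := h.fin
  set ω := (volume : Measure (En n)) (ball 0 1) with hω
  have h1 := tonelli τ (f := (closedBall x (1 + r)).indicator 1)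
    (measurable_one.indicator measurableSet_closedBall)
  have h2 : ω * τ (closedBall x r) ≤
      ∫⁻ y, (∫⁻ x' in closedBall y 1, (closedBall x (1 + r)).indicator 1 x') ∂τ := by
    calc ω * τ (closedBall x r) = ∫⁻ _ in closedBall x r, ω ∂τ := by rw [setLIntegral_const]
      _ ≤ ∫⁻ y in closedBall x r,
            (∫⁻ x' in closedBall y 1, (closedBall x (1 + r)).indicator 1 x') ∂τ := by
          apply setLIntegral_mono' measurableSet_closedBall
          intro y hy
          have h3 : ω = (volume : Measure (En n)) (closedBall y 1) := by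
            rw [vol_closedBall y zero_le_one]
            simp [hω]
          rw [h3, ← setLIntegral_one]
          apply setLIntegral_mono' measurableSet_closedBall
          intro x' hx'
          rw [indicator_of_mem]
          · rfl
          · rw [mem_closedBall] at hy hx' ⊢
            have := dist_triangle x' y x
            linarith
      _ ≤ _ := setLIntegral_le_lintegral _ _
  have h3 : ∫⁻ y, (closedBall x (1 + r)).indicator 1 y * τ (closedBall y 1) ≤
      ENNReal.ofReal (Real.exp 2) * (ENNReal.ofReal ((1 + r) ^ n) * ω) := by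
    calc ∫⁻ y, (closedBall x (1 + r)).indicator 1 y * τ (closedBall y 1)
        ≤ ∫⁻ y, (closedBall x (1 + r)).indicator 1 y * ENNReal.ofReal (Real.exp 2) := by
          apply lintegral_mono
          intro y
          exact mul_le_mul_right (unit_ball h y) _
      _ = ENNReal.ofReal (Real.exp 2) * (volume : Measure (En n)) (closedBall x (1 + r)) := by
          rw [lintegral_mul_const _ (measurable_one.indicator measurableSet_closedBall),
            lintegral_indicator_one measurableSet_closedBall, mul_comm]
      _ = _ := by rw [vol_closedBall x (by linarith)]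
  rw [h1] at h3
  have h4 : ω * τ (closedBall x r) ≤
      ω * (ENNReal.ofReal (Real.exp 2) * ENNReal.ofReal ((1 + r) ^ n)) := by
    refine (h2.trans h3).trans (le_of_eq ?_)
    ring
  exact (ENNReal.mul_le_mul_iff_right (vol_pos n) (vol_fin n)).mp h4

/-- The bound for the potential, in extended nonnegative numbers. -/
theorem potential_bound {n : ℕ} {X : Set (En n)} {τ : Measure (En n)} (h : KT X τ) (z : En n) :
    ENNReal.ofReal (Real.exp (-1)) * (volume : Measure (En n)) (ball 0 1) *
        ENNReal.ofReal (potential τ z) ≤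
      ENNReal.ofReal (Real.exp 2) * ∫⁻ x : En n, ENNReal.ofReal (Real.exp (-‖x‖)) := by
  have := h.fin
  set ω := (volume : Measure (En n)) (ball 0 1) with hω
  have hm : Measurable fun x : En n => ENNReal.ofReal (Real.exp (-dist z x)) :=
    (by fun_prop : Continuous fun x : En n => Real.exp (-dist z x)).measurable.ennreal_ofReal
  have h1 := tonelli τ hm
  have h2 : ∫⁻ x, ENNReal.ofReal (Real.exp (-dist z x)) * τ (closedBall x 1) ≤
      ENNReal.ofReal (Real.exp 2) * ∫⁻ x : En n, ENNReal.ofReal (Real.exp (-‖x‖)) := by
    calc ∫⁻ x, ENNReal.ofReal (Real.exp (-dist z x)) * τ (closedBall x 1)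
        ≤ ∫⁻ x, ENNReal.ofReal (Real.exp (-dist z x)) * ENNReal.ofReal (Real.exp 2) := by
          apply lintegral_mono
          intro y
          exact mul_le_mul_right (unit_ball h y) _
      _ = ENNReal.ofReal (Real.exp 2) *
            ∫⁻ x, ENNReal.ofReal (Real.exp (-dist z x)) := by
          rw [lintegral_mul_const _ hm, mul_comm]
      _ = _ := by
          congr 1
          have h3 := lintegral_sub_left_eq_self (μ := (volume : Measure (En n)))
            (fun x : En n => ENNReal.ofReal (Real.exp (-‖x‖))) z
          rw [← h3]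
          apply lintegral_congr
          intro x
          rw [dist_eq_norm]
  have h3 : ENNReal.ofReal (Real.exp (-1)) * ω * ENNReal.ofReal (potential τ z) ≤
      ∫⁻ y, (∫⁻ x in closedBall y 1, ENNReal.ofReal (Real.exp (-dist z x))) ∂τ := by
    rw [ofReal_potential τ z, ← lintegral_const_mul _ hm]
    apply lintegral_mono
    intro y
    have h4 : ω = (volume : Measure (En n)) (closedBall y 1) := by
      rw [vol_closedBall y zero_le_one]
      simp [hω]
    calc ENNReal.ofReal (Real.exp (-1)) * ω * ENNReal.ofReal (Real.exp (-dist z y))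
        = ENNReal.ofReal (Real.exp (-1 + -dist z y)) *
            (volume : Measure (En n)) (closedBall y 1) := by
          rw [Real.exp_add, ENNReal.ofReal_mul (Real.exp_pos _).le, ← h4]
          ring
      _ = ∫⁻ _ in closedBall y 1, ENNReal.ofReal (Real.exp (-1 + -dist z y)) := by
          rw [setLIntegral_const]
      _ ≤ _ := by
          apply setLIntegral_mono' measurableSet_closedBall
          intro x hx
          apply ENNReal.ofReal_le_ofReal
          apply Real.exp_le_exp.mpr
          rw [mem_closedBall] at hx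
          have := dist_triangle_right z x y
          linarith
  rw [← h1] at h3
  exact h3.trans h2

theorem bdd : BDD := by
  intro n hn
  set ω := (volume : Measure (En n)) (ball 0 1) with hω
  set K := ∫⁻ x : En n, ENNReal.ofReal (Real.exp (-‖x‖)) with hK
  have hKfin : K ≠ ∞ := by
    have h := (integrable_exp_neg_norm hn).hasFiniteIntegral
    unfold HasFiniteIntegral at h
    have h2 : K = ∫⁻ x : En n, ‖Real.exp (-‖x‖)‖ₑ := by
      rw [hK]
      apply lintegral_congr
      intro x
      rw [Real.enorm_eq_ofReal (Real.exp_pos _).le]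
    rw [h2]
    exact h.ne
  set c := ENNReal.ofReal (Real.exp (-1)) * ω with hc
  have hc0 : c ≠ 0 := mul_ne_zero (ENNReal.ofReal_pos.mpr (Real.exp_pos _)).ne' (vol_pos n)
  have hcfin : c ≠ ∞ := ENNReal.mul_ne_top ENNReal.ofReal_ne_top (vol_fin n)
  set B := ENNReal.ofReal (Real.exp 2) * K / c with hB
  have hBfin : B ≠ ∞ :=
    ENNReal.div_ne_top (ENNReal.mul_ne_top ENNReal.ofReal_ne_top hKfin) hc0
  refine ⟨1 + Real.exp 2 + B.toReal, by positivity, ?_⟩
  intro X τ h
  have := h.fin
  refine ⟨?_, ?_⟩
  · intro x
    have h1 := potential_bound h x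
    rw [← hc, ← hK] at h1
    have h2 : ENNReal.ofReal (potential τ x) ≤ B := by
      rw [hB, ENNReal.le_div_iff_mul_le (Or.inl hc0) (Or.inl hcfin), mul_comm]
      exact h1
    have h3 : 0 ≤ potential τ x :=
      integral_nonneg fun y => (Real.exp_pos _).le
    have h4 : potential τ x ≤ B.toReal := by
      rw [← ENNReal.toReal_ofReal h3]
      exact ENNReal.toReal_mono hBfin h2
    have h5 := Real.exp_pos 2
    unfold gg
    rw [abs_le]
    constructor <;> nlinarith [ENNReal.toReal_nonneg (a := B)]
  · intro x r hr
    have h1 := ball_mass h x hr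
    have hp : 0 < (1 + r) ^ n := by positivity
    have h2 : τ.real (closedBall x r) ≤ Real.exp 2 * (1 + r) ^ n := by
      rw [Measure.real, ← ENNReal.toReal_ofReal (mul_pos (Real.exp_pos 2) hp).le]
      apply ENNReal.toReal_mono ENNReal.ofReal_ne_top
      rw [ENNReal.ofReal_mul (Real.exp_pos _).le]
      exact h1
    have h3 := ENNReal.toReal_nonneg (a := B)
    nlinarith [mul_nonneg (add_nonneg zero_le_one h3) hp.le]

end Pool.Agent.Helper40.MB
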