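import Pool.Agent.Helper59.MB.Goals3

/-!
# Packet MB-NEG

If the Moebius function is not completely deterministic then question Q1 of MP_49a1ce_an has a
negative answer (proof in the docstring of `S_NEG`).
-/

set_option autoImplicit false

open MeasureTheory Filter Topology Finset

namespace Pool.Agent.Helper40.MB

open Pool.Agent.Helper59.MB

/-- Uniform Moebius disjointness implies Moebius disjointness. -/
lemma md_of_umd {Y : Type} [TopologicalSpace Y] {T : Y → Y} (h : UMD T) : MD T := by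
  intro f x
  rw [Metric.tendsto_atTop]
  intro ε hε
  obtain ⟨N₀, hN₀⟩ := h f (ε / 2) (by positivity)
  refine ⟨max N₀ 1, fun N hN => ?_⟩
  have h1 : N₀ ≤ N := le_trans (le_max_left _ _) hN
  have h2 : 1 ≤ N := le_trans (le_max_right _ _) hN
  have hNpos : (0 : ℝ) < N := by exact_mod_cast h2
  have h3 := hN₀ N h1 x
  rw [Real.dist_eq, sub_zero, abs_mul, abs_of_pos (by positivity : (0 : ℝ) < 1 / (N : ℝ))]
  calc 1 / (N : ℝ) * |∑ n ∈ Finset.Icc 1 N, f (T^[n] x) * ((ArithmeticFunction.moebius n : ℤ) : ℝ)|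
      ≤ 1 / (N : ℝ) * (ε / 2 * N) := by
        exact mul_le_mul_of_nonneg_left h3 (by positivity)
    _ = ε / 2 := by field_simp
    _ < ε := by linarith

/-- the two-point measure on the alphabet -/
noncomputable def mh : Measure A :=
  (1 / 2 : ENNReal) • Measure.dirac (fun _ => true) + (1 / 2 : ENNReal) • Measure.dirac (fun _ => false)

instance mh_prob : IsProbabilityMeasure mh := by
  constructor
  simp only [mh, Measure.coe_add, Measure.coe_smul, Pi.add_apply, Pi.smul_apply, measure_univ,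
    smul_eq_mul, mul_one]
  simp only [one_div]
  exact ENNReal.inv_two_add_inv_two

lemma mh_half : mh.real {a : A | a 0 = true} = 1 / 2 := by
  have hm : MeasurableSet {a : A | a 0 = true} := by
    exact measurableSet_eq_fun (measurable_pi_apply 0) measurable_const
  have h : mh {a : A | a 0 = true} = 1 / 2 := by
    simp only [mh, Measure.coe_add, Measure.coe_smul, Pi.add_apply, Pi.smul_apply, smul_eq_mul]
    rw [Measure.dirac_apply' _ hm, Measure.dirac_apply' _ hm]
    simp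
  rw [Measure.real, h]
  simp

theorem t_NEG (hMOD1 : S_MOD1) (hNMD : S_NMD) (hISA : S_ISA) (hUEE : S_UEE) : S_NEG := by
  rintro ⟨δ, hδ, hNP⟩ hQ
  obtain ⟨Y, iY1, iY2, iY3, iY4, T, ν, hUE, hIso, hUMD⟩ := hMOD1 mh
  obtain ⟨Z, iZ1, iZ2, iZ3, iZ4, S, ρ, hUE', hIso', hnMD⟩ := hNMD mh
    ⟨0, by rw [mh_half]; norm_num, by rw [mh_half]; norm_num⟩ δ hδ hNP
  have hsym : Iso (⇑TB) (BM mh) (⇑S) ρ := hISA.1 Z Bas (⇑S) ρ (⇑TB) (BM mh) hUE'.2.1 hIso'
  have hiso : Iso (⇑T) ν (⇑S) ρ := hISA.2 Y Bas Z (⇑T) ν (⇑TB) (BM mh) (⇑S) ρ hIso hsym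
  exact hnMD (hQ Y Z T S ν ρ hUE.1 hUE'.1 hUE.2.1 hUE'.2.1 hUE.2.2 hUE'.2.2
    (hUEE Y (⇑T) ν hUE) hiso (md_of_umd hUMD))

end Pool.Agent.Helper40.MB
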