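import Pool.Agent.Helper59.MB.Goals1

/-!
# Project MB (MP_49a1ce_an), packet UNI: unique ergodicity from convergence to constants
-/

set_option autoImplicit false

open MeasureTheory Filter Topology Finset
open Pool.Agent.Helper59.MB

namespace Pool.Agent.Helper40.MB

section

variable {Y : Type} [MetricSpace Y] [CompactSpace Y] [MeasurableSpace Y] [BorelSpace Y]

theorem integrable_cont (f : C(Y, ℝ)) (ν : Measure Y) [IsProbabilityMeasure ν] :
    Integrable (fun x => f x) ν :=
  (BoundedContinuousFunction.mkOfCompact f).integrable ν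

theorem integral_iter (f : C(Y, ℝ)) (ν : Measure Y) (T : Y → Y)
    (hT : MeasurePreserving T ν ν) (n : ℕ) : ∫ x, f (T^[n] x) ∂ν = ∫ x, f x ∂ν := by
  have h1 := hT.iterate n
  have h2 := integral_map (μ := ν) (φ := T^[n]) h1.measurable.aemeasurable
    (f := fun x => f x) (f.continuous.measurable.aestronglyMeasurable)
  rw [h1.map_eq] at h2
  exact h2.symm

theorem integral_const_of (f : C(Y, ℝ)) (ν : Measure Y) [IsProbabilityMeasure ν] (T : Y → Y)
    (hTc : Continuous T) (hT : MeasurePreserving T ν ν) (c : ℝ)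
    (h : ∀ ε > 0, ∃ N₀ : ℕ, ∀ N ≥ N₀, ∀ x : Y,
      |∑ n ∈ Icc 1 N, f (T^[n] x) - c * N| ≤ ε * N) : ∫ x, f x ∂ν = c := by
  refine eq_of_abs_sub_le_all fun ε hε => ?_
  obtain ⟨N₀, hN⟩ := h ε hε
  have hN' := hN (max N₀ 1) (le_max_left _ _)
  set N := max N₀ 1 with hNdef
  have hN0 : (0 : ℝ) < N := by
    have : 1 ≤ N := le_max_right _ _
    exact_mod_cast this
  have hint : ∀ n ∈ Icc 1 N, Integrable (fun x => f (T^[n] x)) ν := fun n _ =>
    integrable_cont (f.comp ⟨T^[n], hTc.iterate n⟩) ν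
  have h1 : ∫ x, (∑ n ∈ Icc 1 N, f (T^[n] x) - c * N) ∂ν = (∫ x, f x ∂ν - c) * N := by
    rw [integral_sub (integrable_finset_sum _ hint) (integrable_const _),
      integral_finset_sum _ hint, Finset.sum_congr rfl fun n _ => integral_iter f ν T hT n]
    simp
    ring
  have h2 : ‖∫ x, (∑ n ∈ Icc 1 N, f (T^[n] x) - c * N) ∂ν‖ ≤ ε * N := by
    have h3 := norm_integral_le_of_norm_le_const (μ := ν)
      (f := fun x => ∑ n ∈ Icc 1 N, f (T^[n] x) - c * N) (C := ε * N)
      (Eventually.of_forall fun x => by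
        rw [Real.norm_eq_abs]
        exact hN' x)
    simpa using h3
  rw [h1, norm_mul, Real.norm_eq_abs, Real.norm_eq_abs, abs_of_pos hN0] at h2
  exact le_of_mul_le_mul_right h2 hN0

end

theorem t_UNI : S_UNI := by
  intro Y _ _ _ _ T hTc h ν hν hT
  refine ⟨hν, hT, fun ν' hν' hT' => ?_⟩
  refine ext_of_forall_integral_eq_of_IsFiniteMeasure fun f => ?_
  obtain ⟨c, hc⟩ := h f.toContinuousMap
  have h1 := integral_const_of f.toContinuousMap ν' T hTc hT' c hc
  have h2 := integral_const_of f.toContinuousMap ν T hTc hT c hc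
  exact h1.trans h2.symm

end Pool.Agent.Helper40.MB
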